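import Mathlib

/-!
# Project TW (MP_2ae8fe_ag): sets of primes of positive lower density, and the abstract theorem

`LogDense P`: the primes with property `P` have positive lower density in the sense of Mertens (this
follows from positive lower natural density, so it holds for Chebotarev sets).  `HBSD` is the
statement of the abstract theorem for such sets of primes.
-/

set_option autoImplicit false

namespace Pool.Agent.Helper48.TW

open Classical in
/-- the primes with property `P` have positive lower density in the sense of Mertens -/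
def LogDense (P : ℕ → Prop) : Prop := ∃ c C : ℝ, 0 < c ∧ ∀ N : ℕ, 2 ≤ N →
  c * Real.log (Real.log N) - C ≤
    ∑ r ∈ (Finset.Icc 1 N).filter (fun r => r.Prime ∧ P r), (1 : ℝ) / r

/-- the statement of the abstract counting theorem, for sets of primes of positive lower density -/
def HBSD : Prop :=
  ∀ (J : Type) [Fintype J] [DecidableEq J] (S : (J → Bool) → ℕ → Prop),
    (∀ e, LogDense (S e)) →
    ∃ C δ : ℝ, 0 < δ ∧ ∀ (kap : (J → Bool) → J → ℕ → ℤ) (N : ℕ), 2 ≤ N → ∀ A : Finset ℕ,
      (∀ m ∈ A, m ≤ N ∧ Odd m ∧ Squarefree m ∧ ∃ D : (J → Bool) → ℕ, ∏ e, D e = m ∧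
        ∀ e, ∀ r : ℕ, r.Prime → r ∣ D e → ¬ S e r ∧
          ∀ j, jacobiSym (∏ e' ∈ Finset.univ.filter (fun e' : J → Bool => e' j ≠ e j), (D e' : ℤ)) r
            = kap e j r ∧ kap e j r ≠ 0) →
      (A.card : ℝ) ≤ C * N * (Real.log N) ^ (-δ)

/-- a property implied by one of positive lower density has positive lower density -/
theorem LogDense.mono {P Q : ℕ → Prop} (hP : LogDense P) (h : ∀ r : ℕ, r.Prime → P r → Q r) :
    LogDense Q := by
  classical
  obtain ⟨c, C, hc, hb⟩ := hP
  refine ⟨c, C, hc, fun N hN => (hb N hN).trans ?_⟩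
  apply Finset.sum_le_sum_of_subset_of_nonneg
  · intro r hr
    rw [Finset.mem_filter] at hr ⊢
    exact ⟨hr.1, hr.2.1, h r hr.2.1 hr.2.2⟩
  · intro r _ _
    positivity

end Pool.Agent.Helper48.TW
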