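import Pool.Agent.Helper44.MertensProd
import Pool.Agent.Helper13.TW.Wirs
import Pool.Agent.Helper48.TW.Dens

/-!
# Project TW: mean values of non-negative multiplicative functions below 1

`sum_mult_le`: if `0 ≤ g p ≤ 1`, and `g p ≤ 1 - κ` for the primes `p` of a set of positive lower
density, then the sum of `∏_{p | m} g p` over the squarefree `m ≤ N` is at most
`C N (log N) ^ (-δ)`, with `C` and `δ` independent of `g`.
-/

set_option autoImplicit false

open Finset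

namespace Pool.Agent.Helper48.TW

/-- Mertens' upper bound, over `Finset.Icc 1 N` -/
theorem mertens_upper : ∃ C : ℝ, ∀ N : ℕ, 2 ≤ N →
    ∑ p ∈ (Finset.Icc 1 N).filter Nat.Prime, (1 : ℝ) / p ≤ Real.log (Real.log N) + C := by
  obtain ⟨C, hC, h⟩ := Pool.Agent.Helper44.sum_primesUpTo_bounds
  refine ⟨C, fun N hN => ?_⟩
  have h1 := (abs_le.mp (h N (by exact_mod_cast hN))).2
  have h2 : Pool.Agent.Helper44.primesUpTo (N : ℝ) = (Finset.Icc 1 N).filter Nat.Prime := by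
    unfold Pool.Agent.Helper44.primesUpTo
    rw [Nat.floor_natCast]
    rfl
  rw [h2] at h1
  linarith

/-- the exponential sum over primes -/
theorem exp_prime_sum_le {κ : ℝ} (hκ : 0 < κ) {P : ℕ → Prop} (hP : LogDense P) :
    ∃ C δ : ℝ, 0 < C ∧ 0 < δ ∧ ∀ g : ℕ → ℝ, (∀ p, p.Prime → 0 ≤ g p ∧ g p ≤ 1) →
      (∀ p, p.Prime → P p → g p ≤ 1 - κ) → ∀ N : ℕ, 2 ≤ N →
        Real.exp (∑ p ∈ (Finset.Icc 1 N).filter Nat.Prime, g p / p) ≤
          C * Real.log N * Real.log N ^ (-δ) := by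
  classical
  obtain ⟨c, C1, hc, h1⟩ := hP
  obtain ⟨C2, h2⟩ := mertens_upper
  refine ⟨Real.exp (C2 + κ * C1), κ * c, Real.exp_pos _, by positivity, fun g hg hgT N hN => ?_⟩
  have hlogN : 0 < Real.log N := Real.log_pos (by exact_mod_cast (by omega : 1 < N))
  have h4 : c * Real.log (Real.log N) - C1 ≤
      ∑ r ∈ (Finset.Icc 1 N).filter (fun r => r.Prime ∧ P r), (1 : ℝ) / r := by
    convert h1 N hN
  set cl : Finset ℕ := (Finset.Icc 1 N).filter (fun r => r.Prime ∧ P r) with hcl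
  have hsub : cl ⊆ (Finset.Icc 1 N).filter Nat.Prime := by
    intro p hp
    simp only [hcl, Finset.mem_filter] at hp ⊢
    exact ⟨hp.1, hp.2.1⟩
  have h3 : ∑ p ∈ (Finset.Icc 1 N).filter Nat.Prime, g p / p ≤
      ∑ p ∈ (Finset.Icc 1 N).filter Nat.Prime, (1 : ℝ) / p -
        κ * ∑ p ∈ cl, (1 : ℝ) / p := by
    rw [Finset.mul_sum, ← Finset.sum_sdiff hsub, ← Finset.sum_sdiff hsub, add_sub_assoc,
      ← Finset.sum_sub_distrib]
    apply add_le_add
    · apply Finset.sum_le_sum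
      intro p hp
      simp only [Finset.mem_sdiff, Finset.mem_filter] at hp
      have hp0 : (0 : ℝ) < p := by exact_mod_cast hp.1.2.pos
      exact div_le_div_of_nonneg_right (hg p hp.1.2).2 hp0.le
    · apply Finset.sum_le_sum
      intro p hp
      simp only [hcl, Finset.mem_filter] at hp
      have hp0 : (0 : ℝ) < p := by exact_mod_cast hp.2.1.pos
      have h4 := hgT p hp.2.1 hp.2.2
      rw [mul_one_div, ← sub_div]
      exact div_le_div_of_nonneg_right h4 hp0.le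
  have h5 := h2 N hN
  have h6 : ∑ p ∈ (Finset.Icc 1 N).filter Nat.Prime, g p / p ≤
      (C2 + κ * C1) + Real.log (Real.log N) + Real.log (Real.log N) * (-(κ * c)) := by
    have h7 := mul_le_mul_of_nonneg_left h4 hκ.le
    nlinarith
  calc Real.exp (∑ p ∈ (Finset.Icc 1 N).filter Nat.Prime, g p / p)
      ≤ Real.exp ((C2 + κ * C1) + Real.log (Real.log N) + Real.log (Real.log N) * (-(κ * c))) :=
        Real.exp_le_exp.mpr h6
    _ = Real.exp (C2 + κ * C1) * Real.log N * Real.log N ^ (-(κ * c)) := by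
        rw [Real.exp_add, Real.exp_add, Real.exp_log hlogN, Real.rpow_def_of_pos hlogN]

theorem sum_mult_le {κ : ℝ} (hκ : 0 < κ) {P : ℕ → Prop} (hP : LogDense P) :
    ∃ C δ : ℝ, 0 < C ∧ 0 < δ ∧ ∀ g : ℕ → ℝ, (∀ p, 0 ≤ g p) → (∀ p, p.Prime → g p ≤ 1) →
      (∀ p, p.Prime → P p → g p ≤ 1 - κ) → ∀ N : ℕ, 2 ≤ N →
        ∑ m ∈ (Finset.Icc 1 N).filter Squarefree, ∏ p ∈ m.primeFactors, g p ≤
          C * N * Real.log N ^ (-δ) := by
  obtain ⟨C1, δ, hC1, hδ, h1⟩ := exp_prime_sum_le hκ hP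
  obtain ⟨C2, hC2, h2⟩ := Pool.Agent.Helper13.TW.wirs
  refine ⟨C2 * C1, δ, by positivity, hδ, fun g hg0 hg1 hgT N hN => ?_⟩
  have hg : ∀ p : ℕ, p.Prime → 0 ≤ g p ∧ g p ≤ 1 := fun p hp => ⟨hg0 p, hg1 p hp⟩
  have hlogN : 0 < Real.log N := Real.log_pos (by exact_mod_cast (by omega : 1 < N))
  refine (h2 g hg N hN).trans ?_
  have h3 := h1 g hg hgT N hN
  calc C2 * N / Real.log N * Real.exp (∑ p ∈ (Finset.Icc 1 N).filter Nat.Prime, g p / p)
      ≤ C2 * N / Real.log N * (C1 * Real.log N * Real.log N ^ (-δ)) := by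
        apply mul_le_mul_of_nonneg_left h3 (by positivity)
    _ = C2 * C1 * N * Real.log N ^ (-δ) := by
        field_simp

end Pool.Agent.Helper48.TW
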