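import Pool.Agent.Helper36.TW.Pos
import Pool.Agent.Helper36.TW.Link
import Pool.Agent.Helper36.TW.CaseI
import Pool.Agent.Helper36.TW.Sum
import Pool.Agent.Helper36.TW.Params2
import Pool.Agent.Helper94.TW.Mult2
import Pool.Agent.Helper48.TW.CaseII2
import Pool.Agent.Helper11.TW.Defs2

/-!
# Project TW (MP_2ae8fe_ag): the abstract Heath-Brown upper bound, every exponent below the density

`hB` is helper81's `bilinear`.  The assembly is that of `Pool.Agent.Helper36.TW.Main`.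
-/

set_option autoImplicit false
set_option linter.unusedSectionVars false

namespace Pool.Agent.Helper48.TW

open Finset Pool.Agent.Helper36.TW Filter

/-- a density is at most `1` -/
theorem le_one_of_dense {κ₀ : ℝ} {S : ℕ → Prop} (h : Pool.Agent.Helper11.TW.DensePrimes κ₀ S) :
    κ₀ ≤ 1 := by
  classical
  by_contra hcon
  push Not at hcon
  obtain ⟨K, hK⟩ := h
  obtain ⟨C, hC⟩ := Pool.Agent.Helper94.TW.sum_inv_upper
  have ht : Tendsto (fun x : ℕ => (κ₀ - 1) * Real.log (Real.log (x : ℝ))) atTop atTop :=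
    (Real.tendsto_log_atTop.comp (Real.tendsto_log_atTop.comp tendsto_natCast_atTop_atTop)).const_mul_atTop
      (by linarith)
  obtain ⟨x, hx2, hx⟩ := ((eventually_ge_atTop 2).and (ht.eventually_gt_atTop (C + K))).exists
  have h1 := hK x hx2
  have h2 := hC x hx2
  have h3 : ∑ r ∈ (Finset.Icc 1 x).filter (fun r => r.Prime ∧ S r), (1 / r : ℝ) ≤
      ∑ p ∈ (Finset.Icc 1 x).filter Nat.Prime, (1 : ℝ) / p := by
    apply Finset.sum_le_sum_of_subset_of_nonneg
    · intro r hr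
      rw [Finset.mem_filter] at hr ⊢
      exact ⟨hr.1, hr.2.1⟩
    · intro r _ _
      positivity
  have h4 : κ₀ * Real.log (Real.log x) - K ≤
      ∑ r ∈ (Finset.Icc 1 x).filter (fun r => r.Prime ∧ S r), (1 / r : ℝ) := by
    convert h1
  linarith

variable {J : Type} [Fintype J] [DecidableEq J]

/-- the mean value bound for an unlinked set of labels -/
theorem exists_multBound2 (S : (J → Bool) → ℕ → Prop) {κ₀ : ℝ} (hκ : κ₀ ≤ 1)
    (hS : ∀ e, Pool.Agent.Helper11.TW.DensePrimes κ₀ (S e))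
    (L : Finset ((J → Bool) × (J → Bool))) (h : Unlinked PhiL L) :
    ∃ G : (ℕ → ℝ) → Prop, MultBound2 G κ₀ ∧ ∀ κ : (J → Bool) → J → ℕ → ℤ,
      G (fun r => ∑ a ∈ L, |wL S κ a r|) := by
  classical
  have hcL : (1 / 2 : ℝ) ^ Fintype.card J * (L.card : ℝ) ≤ 1 := by
    calc (1 / 2 : ℝ) ^ Fintype.card J * (L.card : ℝ)
        ≤ (1 / 2 : ℝ) ^ Fintype.card J * (2 : ℝ) ^ Fintype.card J := by
          apply mul_le_mul_of_nonneg_left _ (by positivity)
          exact_mod_cast card_unlinked L h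
      _ = 1 := by
          rw [← mul_pow]
          norm_num
  obtain ⟨K', hK'⟩ := Pool.Agent.Helper94.TW.labels_sum_le κ₀ hκ
    (fun a : (J → Bool) × (J → Bool) => S a.1) L ((1 / 2 : ℝ) ^ Fintype.card J) (by positivity) hcL
    (by
      intro a
      obtain ⟨K, hK⟩ := hS a.1
      refine ⟨K, fun x hx => ?_⟩
      convert hK x hx)
  refine ⟨fun g => ∀ x : ℕ, 2 ≤ x → ∑ p ∈ (Finset.Icc 1 x).filter Nat.Prime, g p / p ≤
    (1 - κ₀) * Real.log (Real.log x) + K', ?_, ?_⟩
  · obtain ⟨C, hC, hb⟩ := Pool.Agent.Helper94.TW.mult_bound2 κ₀ K'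
    refine ⟨C, hC, fun g h0 h1 hG Y hY => ?_⟩
    have := hb g (fun p hp => ⟨h0 p, h1 p hp⟩) hG Y hY
    convert this
  · intro κ
    refine hK' _ fun p _ => Finset.sum_le_sum fun a _ => ?_
    split_ifs with hs
    · unfold wL
      rw [if_pos hs, abs_zero]
    · exact abs_wL_le S κ a p

/-- the trivial bound, uniform in the unlinked set -/
theorem caseII_all2
    (S : (J → Bool) → ℕ → Prop) {δ : ℝ} (hδ : 0 < δ) (hκ : δ ≤ 1)
    (hS : ∀ e, Pool.Agent.Helper11.TW.DensePrimes δ (S e)) :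
    ∃ C : ℝ, 0 < C ∧ ∀ L : Finset ((J → Bool) × (J → Bool)), Unlinked PhiL L →
      ∀ κ : (J → Bool) → J → ℕ → ℤ, ∀ V N : ℕ, 1 ≤ V → 16 ≤ N →
      V ^ (2 * Fintype.card ((J → Bool) × (J → Bool))) ≤ N →
      |∑ D ∈ (Dset ((J → Bool) × (J → Bool)) N).filter (fun D => large V D = L),
          term PhiL (wL S κ) D| ≤
        C * N * (Real.log N) ^ (-δ) *
          (1 + Real.log V) ^ Fintype.card ((J → Bool) × (J → Bool)) := by
  classical
  have key : ∀ L : Finset ((J → Bool) × (J → Bool)), ∃ C : ℝ, 0 < C ∧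
      (Unlinked PhiL L → ∀ κ : (J → Bool) → J → ℕ → ℤ, ∀ V N : ℕ, 1 ≤ V → 16 ≤ N →
      V ^ (2 * Fintype.card ((J → Bool) × (J → Bool))) ≤ N →
      |∑ D ∈ (Dset ((J → Bool) × (J → Bool)) N).filter (fun D => large V D = L),
          term PhiL (wL S κ) D| ≤
        C * N * (Real.log N) ^ (-δ) *
          (1 + Real.log V) ^ Fintype.card ((J → Bool) × (J → Bool))) := by
    intro L
    by_cases hL : Unlinked PhiL L
    · obtain ⟨G, hG, hcl⟩ := exists_multBound2 S hκ hS L hL
      obtain ⟨C, hC, h⟩ := caseII2 (Λ := (J → Bool) × (J → Bool)) hδ hG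
      refine ⟨C, hC, fun _ κ V N hV hN hVN => ?_⟩
      refine h PhiL (wL S κ) (fun c r => ?_) L (fun r _ => sum_abs_le S κ L hL r)
        (hcl κ) V N hV hN hVN
      exact (abs_wL_le S κ c r).trans (pow_le_one₀ (by norm_num) (by norm_num))
    · exact ⟨1, one_pos, fun h => absurd h hL⟩
  choose Cf hCf hf using key
  refine ⟨∑ L, Cf L, ?_, ?_⟩
  · exact Finset.sum_pos (fun L _ => hCf L) ⟨∅, mem_univ _⟩
  · intro L hL κ V N hV hN hVN
    refine (hf L hL κ V N hV hN hVN).trans ?_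
    have hNr : (16 : ℝ) ≤ N := by exact_mod_cast hN
    have hlog : 1 ≤ Real.log N := by
      rw [Real.le_log_iff_exp_le (by linarith)]
      have := Real.exp_one_lt_d9
      linarith
    have hlogV : 0 ≤ Real.log V := Real.log_nonneg (by exact_mod_cast hV)
    have h1 : Cf L ≤ ∑ L, Cf L :=
      Finset.single_le_sum (f := Cf) (fun L _ => (hCf L).le) (mem_univ L)
    have h4 : 0 ≤ (1 + Real.log V) ^ Fintype.card ((J → Bool) × (J → Bool)) := by positivity
    have h5 : 0 ≤ (Real.log N) ^ (-δ) := Real.rpow_nonneg (by linarith) _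
    have h6 : (0 : ℝ) ≤ N := by linarith
    exact mul_le_mul_of_nonneg_right (mul_le_mul_of_nonneg_right
      (mul_le_mul_of_nonneg_right h1 h6) h5) h4

theorem HB2_aux (hB : Bilinear)
    (S : (J → Bool) → ℕ → Prop) {δ2 δ : ℝ} (hδ : 0 < δ) (hlt : δ < δ2)
    (hS : ∀ e, Pool.Agent.Helper11.TW.DensePrimes δ2 (S e)) :
    ∃ C : ℝ, 0 < C ∧ ∀ κ : (J → Bool) → J → ℕ → ℤ, ∀ N : ℕ, 2 ≤ N →
      ∀ A : Finset ℕ, (∀ m ∈ A, m ≤ N ∧ Odd m ∧ Squarefree m ∧
        ∃ D : (J → Bool) → ℕ, ∏ e, D e = m ∧ ∀ e, ∀ r : ℕ, r.Prime → r ∣ D e →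
          ¬ S e r ∧ ∀ j : J, κ e j r ≠ 0 ∧
            jacobiSym ((∏ e' ∈ univ.filter (fun e' : J → Bool => e' j ≠ e j), D e' : ℕ) : ℤ) r =
              κ e j r) →
      (A.card : ℝ) ≤ C * N * (Real.log N) ^ (-δ) := by
  classical
  obtain ⟨C1, hC1, h1⟩ := caseI (Λ := (J → Bool) × (J → Bool)) hB
  have hδ2 : 0 < δ2 := hδ.trans hlt
  obtain ⟨C2, hC2, h2⟩ := caseII_all2 S hδ2 (le_one_of_dense (hS fun _ => false)) hS
  obtain ⟨N0, hN0, hpar⟩ := params2 (Fintype.card ((J → Bool) × (J → Bool))) δ2 δ hδ hlt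
  set K : ℕ := Fintype.card ((J → Bool) × (J → Bool)) with hK
  set Q : ℝ := (Fintype.card (Finset ((J → Bool) × (J → Bool))) : ℝ) with hQ
  have hQ0 : 0 ≤ Q := Nat.cast_nonneg _
  have hN0r : (16 : ℝ) ≤ N0 := by exact_mod_cast hN0
  have hlog0 : 0 < Real.log N0 := Real.log_pos (by linarith)
  have hE : 0 < (Real.log N0) ^ δ := Real.rpow_pos_of_pos hlog0 _
  refine ⟨Q * (C1 + C2) + (Real.log N0) ^ δ, by positivity, ?_⟩
  intro κ N hN A hA
  have hNr : (2 : ℝ) ≤ N := by exact_mod_cast hN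
  have hlogN : 0 < Real.log N := Real.log_pos (by linarith)
  have hpow : 0 < (Real.log N) ^ (-δ) := Real.rpow_pos_of_pos hlogN _
  have hsub : A ⊆ (Icc 1 N).filter (fun m => Squarefree m ∧ Odd m) := by
    intro m hm
    obtain ⟨h3, h4, h5, -⟩ := hA m hm
    rw [mem_filter, mem_Icc]
    exact ⟨⟨Nat.one_le_iff_ne_zero.2 h5.ne_zero, h3⟩, h5, h4⟩
  rcases le_or_gt N0 N with hNN | hNN
  · obtain ⟨V, hV1, hVN, hp1, hp2⟩ := hpar N hNN
    have hN16 : 16 ≤ N := hN0.trans hNN
    have hstep1 : (A.card : ℝ) ≤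
        ∑ D ∈ Dset ((J → Bool) × (J → Bool)) N, term PhiL (wL S κ) D := by
      calc (A.card : ℝ) = ∑ m ∈ A, (1 : ℝ) := by simp
        _ ≤ ∑ m ∈ A, ∑ D ∈ fact ((J → Bool) × (J → Bool)) m, term PhiL (wL S κ) D := by
            refine Finset.sum_le_sum fun m hm => ?_
            obtain ⟨-, -, h5, D, hD, hD2⟩ := hA m hm
            exact ge_one S κ h5 D hD hD2
        _ ≤ ∑ m ∈ (Icc 1 N).filter (fun m => Squarefree m ∧ Odd m),
              ∑ D ∈ fact ((J → Bool) × (J → Bool)) m, term PhiL (wL S κ) D := by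
            refine Finset.sum_le_sum_of_subset_of_nonneg hsub fun m hm _ => ?_
            exact pos S κ (mem_filter.1 hm).2.1
        _ = _ := sum_Dset _ N
    refine hstep1.trans ?_
    rw [sum_large (term PhiL (wL S κ)) N V]
    have hbound : ∀ L : Finset ((J → Bool) × (J → Bool)),
        ∑ D ∈ (Dset ((J → Bool) × (J → Bool)) N).filter (fun D => large V D = L),
          term PhiL (wL S κ) D ≤ (C1 + C2) * N * (Real.log N) ^ (-δ) := by
      intro L
      refine (le_abs_self _).trans ?_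
      by_cases hL : Unlinked PhiL L
      · refine (h2 L hL κ V N hV1 hN16 hVN).trans ?_
        calc C2 * N * (Real.log N) ^ (-δ2) * (1 + Real.log V) ^ K
            = C2 * N * ((Real.log N) ^ (-δ2) * (1 + Real.log V) ^ K) := by ring
          _ ≤ C2 * N * (Real.log N) ^ (-δ) := by gcongr
          _ ≤ (C1 + C2) * N * (Real.log N) ^ (-δ) := by
              gcongr
              linarith
      · refine (h1 PhiL (fun a => by simp [PhiL]) (wL S κ) (fun c r => ?_) L hL V N hV1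
          (by omega)).trans ?_
        · exact (abs_wL_le S κ c r).trans (pow_le_one₀ (by norm_num) (by norm_num))
        · calc C1 * N * (V : ℝ) ^ (-(1 / 10 : ℝ)) * (1 + Real.log N) ^ (K + 3)
              = C1 * N * ((V : ℝ) ^ (-(1 / 10 : ℝ)) * (1 + Real.log N) ^ (K + 3)) := by ring
            _ ≤ C1 * N * (Real.log N) ^ (-δ) := by gcongr
            _ ≤ (C1 + C2) * N * (Real.log N) ^ (-δ) := by
                gcongr
                linarith
    calc ∑ L : Finset ((J → Bool) × (J → Bool)),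
          ∑ D ∈ (Dset ((J → Bool) × (J → Bool)) N).filter (fun D => large V D = L),
            term PhiL (wL S κ) D
        ≤ ∑ L : Finset ((J → Bool) × (J → Bool)), (C1 + C2) * N * (Real.log N) ^ (-δ) :=
          Finset.sum_le_sum fun L _ => hbound L
      _ = Q * (C1 + C2) * (N * (Real.log N) ^ (-δ)) := by
          rw [Finset.sum_const, Finset.card_univ, nsmul_eq_mul, hQ]
          ring
      _ ≤ (Q * (C1 + C2) + (Real.log N0) ^ δ) * (N * (Real.log N) ^ (-δ)) := by
          gcongr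
          linarith
      _ = _ := by ring
  · have hcard : (A.card : ℝ) ≤ N := by
      have h3 : A.card ≤ ((Icc 1 N).filter (fun m => Squarefree m ∧ Odd m)).card :=
        Finset.card_le_card hsub
      have h4 : ((Icc 1 N).filter (fun m => Squarefree m ∧ Odd m)).card ≤ (Icc 1 N).card :=
        Finset.card_filter_le _ _
      rw [Nat.card_Icc] at h4
      exact_mod_cast (by omega : A.card ≤ N)
    have hle : (Real.log N0) ^ (-δ) ≤ (Real.log N) ^ (-δ) := by
      refine Real.rpow_le_rpow_of_nonpos hlogN ?_ (by linarith)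
      exact Real.log_le_log (by linarith) (by exact_mod_cast hNN.le)
    have hone : (Real.log N0) ^ δ * (Real.log N0) ^ (-δ) = 1 := by
      rw [← Real.rpow_add hlog0, add_neg_cancel, Real.rpow_zero]
    calc (A.card : ℝ) ≤ N := hcard
      _ = (Real.log N0) ^ δ * N * (Real.log N0) ^ (-δ) := by
          rw [mul_right_comm, hone, one_mul]
      _ ≤ (Real.log N0) ^ δ * N * (Real.log N) ^ (-δ) := by gcongr
      _ ≤ (Q * (C1 + C2) + (Real.log N0) ^ δ) * N * (Real.log N) ^ (-δ) := by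
          gcongr
          have : 0 ≤ Q * (C1 + C2) := by positivity
          linarith


/-- The abstract theorem with every exponent below the density. -/
theorem HB2 (hB : Bilinear) : Pool.Agent.Helper11.TW.HBS2 := by
  intro J _ _ S κ₀ hS δ hδ hlt
  obtain ⟨C, -, h⟩ := HB2_aux hB S hδ hlt hS
  refine ⟨C, fun κ N hN A hA => h κ N hN A fun m hm => ?_⟩
  obtain ⟨h1, h2, h3, D, hD, h4⟩ := hA m hm
  refine ⟨h1, h2, h3, D, hD, fun e r hr hre => ⟨(h4 e r hr hre).1, fun j => ?_⟩⟩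
  obtain ⟨h5, h6⟩ := (h4 e r hr hre).2 j
  refine ⟨h6, ?_⟩
  rw [← h5]
  push_cast
  rfl

end Pool.Agent.Helper48.TW
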